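import Pool.Agent.H24.ZL.LowZ
import Pool.Agent.H24.RG.Glb

/-!
# [H32 KF Lbp] K3 fibrations (MP_e49dc9_ag): the lower bound for nef and big classes with a constant independent of the class

`lbp`: `H = A ^ m`.  There are `m, C₀, C₁` such that `h⁰(M) ≥ χ(M) - C₀` for all nef `M` with `T(M,M,A) > 0`, `T(M,A,A) > 2 m T(A,A,A)` and `T(M,M,A) ≥ 3 m T(M,A,A) + C₁`.

PROOF.  `exists_sf`: `H = A ^ m`, the generic surface `S`, `ψ`.  `low_uni` with `M' = M H⁻¹` and `Q E := (∀ N nef, 0 ≤ T(N,E,H)) ∧ 0 < T(E,H,H)`: `Cc S ψ H Q` (`nef_cls`, `cls_pos`).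
`Con T H Q M`: `M = Z + R` on `S`, suppose `T(Z,R,H) = - e ≤ 0`.  `0 ≤ T(M,Z,H) = T(Z,Z,H) - e`, `0 ≤ T(M,R,H) = T(R,R,H) - e`.  Index theorem on `S` (`T(Z,R,H)² ≥ T(Z,Z,H) T(R,R,H)` if
`T(Z,Z,H) > 0`; `hdg`, see `con_z`, `H24/VP/Hdg`): `e > 0`: `T(Z,Z,H) = T(R,R,H) = e`, so `T(M,M,H) = T(Z,Z,H) - 2 e + T(R,R,H) = 0`, against `T(M,M,H) > 0`.
`e = 0`: `T(Z,Z,H) T(R,R,H) ≤ 0`; if for instance `T(Z,Z,H) > 0` then `T(R,R,H) = 0` and `R` is orthogonal to the positive class `Z`, so `T(R,·,H) = 0` (index theorem), against `T(R,H,H) > 0`;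
if both are `0` then `T(M,M,H) = 0`.  `0 < h⁰(ψ M')`: `t4` (`chS(M') ≤ h⁰(ψ M')` if `T(M',H,H) > T(H,H,H)`), `chS(M') = T(M,M,H)/2 - 3/2 T(M,H,H) + 7/6 T(H,H,H) + l(H) > 0`
(as at the end of `low_z`).
-/

set_option autoImplicit false

namespace Pool.Agent.H32.KF

open Pool.Agent.H54.RV Pool.Agent.H83.TU Pool.Agent.H24.VP Pool.Agent.H24.ZL

variable {k K : Type} [Field k] [Field K] [Algebra k K] {X : Mod k K}
  {T : Cart X → Cart X → Cart X → ℝ} {l : Cart X → ℝ} {c : ℝ}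

theorem nef_hh (hr : RR T l c) {H : Cart X} (hp : ∀ B : Cart X, Ample B → 0 < T B H H) (hH : Ample H) {N : Cart X}
    (hN : ∀ B : Cart X, Ample B → Ample (B * N)) : 0 ≤ T N H H := by
  have h1 : ∀ n : ℕ, Ample (H * N ^ n) := by
    intro n
    induction n with
    | zero =>
      rw [pow_zero, mul_one]
      exact hH
    | succ n ih =>
      rw [pow_succ, ← mul_assoc]
      exact hN _ ih
  by_contra hneg
  push Not at hneg
  obtain ⟨n, hn⟩ := exists_nat_gt (T H H H / -T N H H)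
  rw [div_lt_iff₀ (by linarith)] at hn
  have h2 := hp _ (h1 n)
  rw [hr.tri.add, hr.tri.pow] at h2
  linarith

theorem lbp [CharZero k] [T0Space X.P] (h : Hyp X) (hr : RR T l c) {A : Cart X} (hA : Ample A) :
    ∃ (m : ℕ) (C₀ C₁ : ℝ), 1 ≤ m ∧ ∀ M : Cart X, (∀ B : Cart X, Ample B → Ample (B * M)) → 0 < T M M A →
      2 * m * T A A A < T M A A → 3 * m * T M A A + C₁ ≤ T M M A → chi T l c M - C₀ ≤ h0 M 1 := by
  obtain ⟨m, k', L, i1, i2, i3, S, ψ, hm, hS⟩ := exists_sf h hA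
  have ht := hr.tri
  obtain ⟨C, hC⟩ := low_uni hr hS
  obtain ⟨H, hH⟩ : ∃ H, H = A ^ m := ⟨_, rfl⟩
  rw [← hH] at hS hC
  have hm0 : (0 : ℝ) < m := by exact_mod_cast hm
  have hm1 : (1 : ℝ) ≤ m := by exact_mod_cast hm
  have hi : ∀ A B C, ∃ z : ℤ, T A B C = z := t_int hr ⟨H, hS.hH⟩
  have hHHH : 0 < T H H H := (crv_num hr hS).1
  have hhdg := hdg hr hS
  have hpos : ∀ B : Cart X, Ample B → 0 < T B H H := fun B hB => pos_amp h hr hB hS.hH hS.hH
  obtain ⟨Q, hQ⟩ : ∃ Q : Cart X → Prop, Q = fun E =>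
      (∀ N : Cart X, (∀ B : Cart X, Ample B → Ample (B * N)) → 0 ≤ T N E H) ∧ 0 < T E H H := ⟨_, rfl⟩
  have hcc : Cc S ψ H Q := by
    refine ⟨?_, ?_, ?_⟩
    · rw [hQ]
      exact ⟨fun N hN => nef_hh hr hpos hS.hH hN, hHHH⟩
    · intro A B hA hB
      rw [hQ] at hA hB ⊢
      refine ⟨fun N hN => ?_, ?_⟩
      · rw [ht.add2]
        have := hA.1 N hN
        have := hB.1 N hN
        linarith
      · rw [ht.add]
        have := hA.2
        have := hB.2
        linarith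
    · intro E hE
      rw [hQ]
      exact ⟨fun N hN => Pool.Agent.H24.RG.nef_cls hr hS hN hE, Pool.Agent.H24.RG.cls_pos hr hS hE⟩
  refine ⟨m, C, 2 * (|l H| + 1), hm, fun M hM h1 h2 h3 => ?_⟩
  have e1 : T M M H = m * T M M A := by rw [hH, ht.pow3]
  have e2 : T M H H = m * (m * T M A A) := by rw [hH, ht.pow2, ht.pow3]
  have e3 : T H H H = m * (m * (m * T A A A)) := by rw [hH, ht.pow, ht.pow2, ht.pow3]
  have hMMH : 0 < T M M H := by rw [e1]; positivity
  have hcon : Con T H Q M := by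
    intro Z R hZ hR hZR
    rw [hQ] at hZ hR
    by_contra hcn
    push Not at hcn
    have a1 := hZ.1 M hM
    have a2 := hR.1 M hM
    rw [hZR] at a1 a2
    have s1 : T R Z H = T Z R H := ht.s12 _ _ _
    rw [s1] at a1
    have a3 : T M M H = T Z Z H + 2 * T Z R H + T R R H := by
      rw [hZR, ht.s12 Z M H, ht.s12 R M H, hZR, hZR, s1]
      ring
    by_cases hzz : 0 < T Z Z H
    · have a4 := hdg_L ht hi hHHH hhdg Z R hzz
      rcases hcn.lt_or_eq with h5 | h5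
      · nlinarith
      · rw [h5] at a4 a1 a2
        have a5 : T R R H = 0 := by
          refine le_antisymm ?_ (by linarith)
          by_contra hcc'
          push Not at hcc'
          have := mul_pos hzz hcc'
          linarith
        have a6 := hdg_eq ht hi hHHH hhdg Z R H hzz h5 a5
        have := hR.2
        linarith
    · push Not at hzz
      have a5 : T Z R H = 0 := by linarith
      have a6 : T Z Z H = 0 := by linarith
      have a7 : 0 < T R R H := by linarith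
      have a8 := hdg_eq ht hi hHHH hhdg R Z H a7 (by rw [s1]; exact a5) a6
      have := hZ.2
      linarith
  have hlt : T H H H < T (M * H⁻¹) H H := by
    rw [ht.add, ht.inv, e2, e3]
    have h4 : (m : ℝ) * (m * (2 * m * T A A A)) < m * (m * T M A A) :=
      mul_lt_mul_of_pos_left (mul_lt_mul_of_pos_left h2 hm0) hm0
    linarith
  have h5 := t4 hr hS _ hlt
  have e4 : chS T l H (M * H⁻¹) = T M M H / 2 - 3 / 2 * T M H H + 7 / 6 * T H H H + l H := by
    unfold chS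
    simp only [ht.add, ht.add2, ht.inv, ht.inv2]
    rw [ht.s12 H M H]
    ring
  have h6 : 0 < chS T l H (M * H⁻¹) := by
    rw [e4, e1, e2]
    have h7 : (m : ℝ) * (3 * m * T M A A + 2 * (|l H| + 1)) ≤ m * T M M A := mul_le_mul_of_nonneg_left h3 hm0.le
    have h8 := neg_abs_le (l H)
    have h9 : |l H| + 1 ≤ (m : ℝ) * (|l H| + 1) := by
      have := abs_nonneg (l H)
      nlinarith
    nlinarith
  refine hC Q hcc M (M * H⁻¹) ?_ hcon ?_
  · rw [mul_comm M, mul_inv_cancel_left]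
  · have h7 := h6.trans_le h5
    exact_mod_cast h7

end Pool.Agent.H32.KF
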