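import Pool.Agent.H32.KF.Rk1
import Pool.Agent.H20.TP.Srf

/-!
# [H32 KF Rk2] K3 fibrations (MP_e49dc9_ag): restriction to a horizontal prime divisor does not change the rank over `k(t)`

`rk2`: `S` a prime divisor with generic point `z`, `s₀` a unit at `z`, and `h⁰(U - S + m F) = 0` for all `m`: `rk U ≤ rk (U | S)`.
PROOF.  If not, there are sections `v i` of `U`, independent over `k(t)`, and polynomials `p i`, not all `0`, such that `w = ∑ p_i(t) v i ≠ 0` vanishes on `S`;
`w s₀ ^ m` is a section of `U + m F` which vanishes on `S`, `m` a bound for the degrees.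
-/

set_option autoImplicit false

namespace Pool.Agent.H32.KF

open Pool.Agent.H54.RV Pool.Agent.H83.TU Pool.Agent.H83.TK Pool.Agent.H36.ZO

variable {k K : Type} [Field k] [Field K] [Algebra k K] {X : Mod k K} {F : Cart X} {s₀ s₁ : K}

theorem sec_pw {D : Cart X} {s : K} (hs : s ∈ secL D 1) (n : ℕ) : s ^ n ∈ secL (D ^ n) 1 := by
  intro x
  have h1 := (X.O x).pow_mem (hs x) n
  rw [pow_one] at h1 ⊢
  rwa [mul_pow, ← pow_eq] at h1

/-- the homogeneous form of a polynomial in `t` -/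
theorem hom_sec (h : Pcl F s₀ s₁) (p : Polynomial k) {m : ℕ} (hm : p.natDegree ≤ m) :
    Polynomial.aeval (s₁ / s₀) p * s₀ ^ m ∈ secL (F ^ m) 1 := by
  have hs0 := h.ne0
  have h1 : Polynomial.aeval (s₁ / s₀) p * s₀ ^ m =
      ∑ j ∈ Finset.range (m + 1), p.coeff j • (s₁ ^ j * s₀ ^ (m - j)) := by
    rw [Polynomial.aeval_eq_sum_range' (Nat.lt_succ_of_le hm), Finset.sum_mul]
    refine Finset.sum_congr rfl fun j hj => ?_
    rw [Finset.mem_range, Nat.lt_succ_iff] at hj
    have h2 : s₀ ^ m = s₀ ^ j * s₀ ^ (m - j) := by rw [← pow_add, Nat.add_sub_cancel' hj]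
    rw [smul_mul_assoc, div_pow, h2]
    congr 1
    field_simp
  rw [h1]
  refine Submodule.sum_mem _ fun j hj => Submodule.smul_mem _ _ ?_
  rw [Finset.mem_range, Nat.lt_succ_iff] at hj
  have h2 := sec_mul1 (sec_pw h.m1 j) (sec_pw h.m0 (m - j))
  rwa [← pow_add, Nat.add_sub_cancel' hj] at h2

theorem t_mem (h : Pcl F s₀ s₁) {z : X.P} (hu : Un (X.O z) (s₀ * F.eq z)) : s₁ / s₀ ∈ X.O z := by
  have h2 : s₁ * F.eq z ∈ X.O z := by
    have := h.m1 z
    rwa [pow_one] at this
  have h4 := (X.O z).mul_mem h2 hu.2.2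
  have hFne := F.ne z
  have hs0 := h.ne0
  have h5 : s₁ * F.eq z * (s₀ * F.eq z)⁻¹ = s₁ / s₀ := by field_simp
  rwa [h5] at h4

theorem rs_aeval (z : X.P) {t : K} (ht : t ∈ X.O z) (p : Polynomial k) :
    Polynomial.aeval t p ∈ X.O z ∧ X.rs z (Polynomial.aeval t p) = Polynomial.aeval (X.rs z t) p := by
  induction p using Polynomial.induction_on' with
  | add p q hp hq =>
    rw [map_add, map_add]
    exact ⟨(X.O z).add_mem hp.1 hq.1, by rw [rs_add z hp.1 hq.1, hp.2, hq.2]⟩
  | monomial n a =>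
    rw [Polynomial.aeval_monomial, Polynomial.aeval_monomial]
    have h1 := (X.O z).pow_mem ht n
    exact ⟨(X.O z).mul_mem ((X.O z).algebraMap_mem a) h1,
      by rw [rs_mul z ((X.O z).algebraMap_mem a) h1, rs_alg, rs_pow z ht]⟩

theorem rs_sum (z : X.P) {ι : Type} (s : Finset ι) (f : ι → K) (hf : ∀ i ∈ s, f i ∈ X.O z) :
    X.rs z (∑ i ∈ s, f i) = ∑ i ∈ s, X.rs z (f i) := by
  classical
  induction s using Finset.induction_on with
  | empty => rw [Finset.sum_empty, Finset.sum_empty, rs_zero]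
  | insert a s ha ih =>
    rw [Finset.sum_insert ha, Finset.sum_insert ha, rs_add z (hf a (Finset.mem_insert_self a s))
      ((X.O z).sum_mem fun i hi => hf i (Finset.mem_insert_of_mem hi)),
      ih fun i hi => hf i (Finset.mem_insert_of_mem hi)]

/-- elements of a spanning set, as many as the dimension, which are independent -/
theorem exists_indep {E L : Type} [Field E] [AddCommGroup L] [Module E L] (s : Set L)
    [FiniteDimensional E (Submodule.span E s)] {n : ℕ} (hn : n ≤ Module.finrank E (Submodule.span E s)) :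
    ∃ v : Fin n → L, (∀ i, v i ∈ s) ∧ LinearIndependent E v := by
  obtain ⟨b, hb, hsp, hli⟩ := exists_linearIndependent E s
  have hfin : Module.Finite E (Submodule.span E b) := by rw [hsp]; infer_instance
  have hbf : b.Finite := by
    have h1 : LinearIndependent E (fun i : b => (⟨i.1, Submodule.subset_span i.2⟩ : Submodule.span E b)) :=
      LinearIndependent.of_comp (Submodule.subtype _) hli
    exact Set.finite_coe_iff.1 h1.finite
  have := hbf.fintype
  have h2 : Module.finrank E (Submodule.span E b) = Fintype.card b :=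
    (finrank_span_set_eq_card hli).trans (Set.toFinset_card b)
  rw [← hsp, h2] at hn
  obtain ⟨e⟩ := Function.Embedding.nonempty_of_card_le (α := Fin n) (β := b) (by simpa using hn)
  exact ⟨fun i => (e i).1, fun i => hb (e i).2, hli.comp e e.injective⟩

theorem rk2 (hX : IsVar X) (h : Pcl F s₀ s₁) {z : X.P} {S U : Cart X} (hS : SPr X z S)
    (hu : Un (X.O z) (s₀ * F.eq z)) (hfd : ∀ W : Cart X, FiniteDimensional k (secL W 1))
    (hfs : ∀ W : Cart (subM hX z), FiniteDimensional k (secL W 1)) (hz : ∀ m : ℕ, h0 (U * F ^ m * S⁻¹) 1 = 0) :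
    rk (IntermediateField.adjoin k {s₁ / s₀}) U ≤
      rk (IntermediateField.adjoin k {X.rs z (s₁ / s₀)}) (resD hX z U) := by
  classical
  by_contra hcon
  rw [not_le] at hcon
  have hs0 := h.ne0
  have := hfd U
  have := hfs (resD hX z U)
  have hf1 := span_fin (IntermediateField.adjoin k {s₁ / s₀}) U
  have hf2 := span_fin (IntermediateField.adjoin k {X.rs z (s₁ / s₀)}) (resD hX z U)
  obtain ⟨u, hud⟩ : ∃ u, u = rk (IntermediateField.adjoin k {X.rs z (s₁ / s₀)}) (resD hX z U) := ⟨_, rfl⟩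
  rw [← hud] at hcon
  obtain ⟨v, hv, hli⟩ := exists_indep (E := IntermediateField.adjoin k {s₁ / s₀}) (secL U 1 : Set K)
    (n := u + 1) hcon
  have htz := t_mem h hu
  have hvO : ∀ i, v i * U.eq z ∈ X.O z := fun i => by
    have := hv i z
    rwa [pow_one] at this
  obtain ⟨p, hp, hps⟩ := dep_poly (ψ := X.rs z (s₁ / s₀)) (u := u)
    (Submodule.span (IntermediateField.adjoin k {X.rs z (s₁ / s₀)}) (secL (resD hX z U) 1 : Set (X.kap z))) hud.ge
    (fun i => X.rs z (v i * U.eq z)) (fun i => Submodule.subset_span (by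
      have h1 := (resS hX z U 1 ⟨v i, hv i⟩).2
      rwa [resS_coe, pow_one] at h1))
  obtain ⟨w, hw⟩ : ∃ w : K, w = ∑ i, Polynomial.aeval (s₁ / s₀) (p i) * v i := ⟨_, rfl⟩
  have hw0 : w ≠ 0 := by
    intro h1
    obtain ⟨i, hi⟩ : ∃ i, p i ≠ 0 := by
      by_contra h2
      push Not at h2
      exact hp (funext h2)
    have h2 : ∀ i, Polynomial.aeval (s₁ / s₀) (p i) ∈ IntermediateField.adjoin k {s₁ / s₀} := fun i => by
      have h3 : s₁ / s₀ ∈ IntermediateField.adjoin k {s₁ / s₀} := IntermediateField.subset_adjoin k _ rfl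
      have h4 : Polynomial.aeval (s₁ / s₀) (p i) =
          ((Polynomial.aeval (⟨s₁ / s₀, h3⟩ : IntermediateField.adjoin k {s₁ / s₀}) (p i) :
            IntermediateField.adjoin k {s₁ / s₀}) : K) := by
        rw [← IntermediateField.coe_val, ← Polynomial.aeval_algHom_apply]
        rfl
      rw [h4]
      exact Subtype.mem _
    have h3 : ∑ i, (⟨Polynomial.aeval (s₁ / s₀) (p i), h2 i⟩ : IntermediateField.adjoin k {s₁ / s₀}) • v i = 0 := by
      rw [← h1, hw]
      rfl
    have h4 := congrArg Subtype.val (Fintype.linearIndependent_iff.1 hli _ h3 i)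
    exact hi ((transcendental_iff.1 h.tr) (p i) h4)
  have hwO : ∀ i ∈ Finset.univ, Polynomial.aeval (s₁ / s₀) (p i) * (v i * U.eq z) ∈ X.O z := fun i _ =>
    (X.O z).mul_mem (rs_aeval z htz (p i)).1 (hvO i)
  have hwz : w * U.eq z = ∑ i, Polynomial.aeval (s₁ / s₀) (p i) * (v i * U.eq z) := by
    rw [hw, Finset.sum_mul]
    exact Finset.sum_congr rfl fun i _ => mul_assoc _ _ _
  have hwr : X.rs z (w * U.eq z) = 0 := by
    rw [hwz, rs_sum z _ _ hwO, ← hps]
    refine Finset.sum_congr rfl fun i _ => ?_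
    rw [rs_mul z (rs_aeval z htz (p i)).1 (hvO i), (rs_aeval z htz (p i)).2]
  obtain ⟨m, hm⟩ : ∃ m : ℕ, ∀ i, (p i).natDegree ≤ m :=
    ⟨∑ i, (p i).natDegree, fun i =>
      Finset.single_le_sum (f := fun i => (p i).natDegree) (fun i _ => Nat.zero_le _) (Finset.mem_univ i)⟩
  have hsec : w * s₀ ^ m ∈ secL (U * F ^ m) 1 := by
    rw [hw, Finset.sum_mul]
    refine Submodule.sum_mem _ fun i _ => ?_
    have h1 := sec_mul1 (hv i) (hom_sec h (p i) (hm i))
    have h2 : Polynomial.aeval (s₁ / s₀) (p i) * v i * s₀ ^ m = v i * (Polynomial.aeval (s₁ / s₀) (p i) * s₀ ^ m) := by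
      ring
    rwa [h2]
  have hnu : ¬ Un (X.O z) (w * s₀ ^ m * (U * F ^ m).eq z ^ 1) := by
    have h1 : w * s₀ ^ m * (U * F ^ m).eq z ^ 1 = w * U.eq z * (s₀ * F.eq z) ^ m := by
      rw [pow_one, mul_eq, pow_eq, mul_pow]
      ring
    have hwO' : w * U.eq z ∈ X.O z := by
      rw [hwz]
      exact (X.O z).sum_mem hwO
    rw [h1]
    intro h2
    rw [un_mul_iff hwO' ((X.O z).pow_mem hu.2.1 m)] at h2
    exact (rs_ne z hwO').2 h2.1 hwr
  have h1 := (ex_mem hX hS (U * F ^ m) 1 (w * s₀ ^ m)).2 ⟨hsec, hnu⟩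
  rw [pow_one] at h1
  have := hfd (U * F ^ m * S⁻¹)
  have h2 : Module.finrank k (secL (U * F ^ m * S⁻¹) 1) = 0 := hz m
  rw [Module.finrank_zero_iff] at h2
  have h3 := Subtype.ext_iff.1 (Subsingleton.elim (⟨w * s₀ ^ m, h1⟩ : secL (U * F ^ m * S⁻¹) 1) 0)
  exact mul_ne_zero hw0 (pow_ne_zero m hs0) h3

end Pool.Agent.H32.KF
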