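import Pool.Agent.H32.KF.Rkb
import Pool.Agent.H32.KF.Lbp

/-!
# [H32 KF Star] K3 fibrations (MP_e49dc9_ag): `l(F) t ≤ δ rk(U) + O(x)`

`star`: `A` ample, `F` the class of a pencil, `S` a horizontal prime divisor.  There are constants such that for `M = U + t F` nef and big (with the two conditions of `lbp`),
`U + n F + A` ample for some `n`, `h⁰(U + m F - S) = 0` for all `m`: if `U + (t - n) F` has no section then `t l(F) + l(U) + c - C₀ ≤ n d (T(U,F,S) + C)`.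
PROOF.  `lbp`: `h⁰(M) ≥ χ(M) - C₀ ≥ l(M) + c - C₀`; `rkb` for `U + (t - n) F`: `h⁰(M) ≤ n d (T(U,F,S) + C)`.
-/

set_option autoImplicit false

namespace Pool.Agent.H32.KF

open Pool.Agent.H54.RV Pool.Agent.H83.TU Pool.Agent.H83.TK Pool.Agent.H20.TD Pool.Agent.H20.TP
open Pool.Agent.H24.VP (RR chS chi)

variable {k K : Type} [Field k] [Field K] [Algebra k K] {X : Mod k K}
  {T : Cart X → Cart X → Cart X → ℝ} {l : Cart X → ℝ} {c : ℝ}

theorem T_zpow1 (hr : RR T l c) (U V W : Cart X) (n : ℤ) : T (U ^ n) V W = n * T U V W := by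
  have ht := hr.tri
  cases n with
  | ofNat n =>
    rw [Int.ofNat_eq_natCast, zpow_natCast, T_pow1 hr]
    push_cast
    ring
  | negSucc n =>
    rw [zpow_negSucc, ht.inv, T_pow1 hr]
    push_cast
    ring

theorem l_zpow (hr : RR T l c) (U : Cart X) (n : ℤ) : l (U ^ n) = n * l U := by
  cases n with
  | ofNat n =>
    rw [Int.ofNat_eq_natCast, zpow_natCast, hr.l_pow]
    push_cast
    ring
  | negSucc n =>
    have h1 : l ((U ^ (n + 1))⁻¹) + l (U ^ (n + 1)) = l 1 := by rw [← hr.ladd, inv_mul_cancel]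
    have h2 : l (1 : Cart X) = 0 := by
      have := hr.ladd 1 1
      rw [mul_one] at this
      linarith
    rw [zpow_negSucc]
    rw [hr.l_pow, h2] at h1
    push_cast at h1 ⊢
    linarith

theorem star [CharZero k] [IsAlgClosed k] [T0Space X.P] (h : Hyp X) (hr : RR T l c) {A F S : Cart X} {z : X.P}
    (hA : Ample A) (hF : ∀ B : Cart X, Ample B → Ample (B * F)) (hS : SPr X z S) (htr : Algebra.trdeg k (X.kap z) = 2)
    {s₀ s₁ : K} (hp : Pcl F s₀ s₁) (hFF : T F F S = 0) (hu : Un (X.O z) (s₀ * F.eq z))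
    (ht : Transcendental k (X.rs z (s₁ / s₀))) :
    ∃ (d m : ℕ) (C C₀ C₁ : ℝ), 0 ≤ C ∧ 1 ≤ m ∧ ∀ (U : Cart X) (t : ℤ) (n : ℕ), (∃ n : ℕ, Ample (U * F ^ n * A)) →
      (∀ m : ℤ, h0 (U * F ^ m * S⁻¹) 1 = 0) →
      (∀ B : Cart X, Ample B → Ample (B * (U * F ^ t))) → 0 < T (U * F ^ t) (U * F ^ t) A →
      0 ≤ T (U * F ^ t) (U * F ^ t) (U * F ^ t) →
      2 * m * T A A A < T (U * F ^ t) A A → 3 * m * T (U * F ^ t) A A + C₁ ≤ T (U * F ^ t) (U * F ^ t) A →
      h0 (U * F ^ (t - n)) 1 = 0 →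
      t * l F + l U + c - C₀ ≤ n * (d * (T U F S + C)) := by
  obtain ⟨d, C, hC0, hC⟩ := rkb h hr hA hF hS htr hp hFF hu ht
  obtain ⟨m, C₀, C₁, hm, hL⟩ := lbp h hr hA
  have hpow : ∀ (m : ℕ) (B : Cart X), Ample B → Ample (B * F ^ m) := by
    intro m B hB
    induction m with
    | zero => rwa [pow_zero, mul_one]
    | succ m ih =>
      rw [pow_succ, ← mul_assoc]
      exact hF _ ih
  refine ⟨d, m, C, C₀, C₁, hC0, hm, fun U t n hU hz hM h1 h2 h3 h4 h5 => ?_⟩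
  have h6 := hL (U * F ^ t) hM h1 h3 h4
  have h7 := hC (U * F ^ (t - n)) (by
    obtain ⟨j, hj⟩ := hU
    obtain ⟨i, hi⟩ : ∃ i : ℕ, 0 ≤ t - n + (i : ℤ) := ⟨(t - n).natAbs, by omega⟩
    refine ⟨i + j, ?_⟩
    obtain ⟨e, he⟩ := Int.eq_ofNat_of_zero_le hi
    have h8 := hpow e _ hj
    have h9 : U * F ^ j * A * F ^ e = U * F ^ (t - n) * F ^ (i + j) * A := by
      have e1 : F ^ e = F ^ (t - n) * F ^ i := by
        rw [← zpow_natCast F e, ← he, zpow_add, zpow_natCast]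
      rw [e1, pow_add]
      ac_rfl
    rwa [h9] at h8) (fun i => by
      have h8 := hz (t - n + i)
      rwa [zpow_add, zpow_natCast, ← mul_assoc] at h8) n
  have e1 : U * F ^ (t - n) * F ^ n = U * F ^ t := by
    rw [mul_assoc, ← zpow_natCast F n, ← zpow_add]
    congr 2
    ring
  have e2 : T (U * F ^ (t - n)) F S = T U F S := by
    rw [hr.tri.add, T_zpow1 hr, hFF]
    ring
  rw [e1, e2, h5] at h7
  have e3 : l (U * F ^ t) = l U + t * l F := by rw [hr.ladd, l_zpow hr]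
  unfold chi at h6
  rw [e3] at h6
  push_cast at h7
  linarith

end Pool.Agent.H32.KF
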