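import Pool.Agent.H36.ZO.Rk

/-!
# [H32 KF Rk1] K3 fibrations (MP_e49dc9_ag): the rank over `k(t)` bounds the number of sections lost in one step

`Pcl F s₀ s₁`: `s₀, s₁` are sections of `F` without common zeros, `t = s₁ / s₀` is transcendental.
`rk1`: `h⁰(W + F) ≤ h⁰(W) + rk(W + F)`, `rk` = the dimension over `k(t)` of the span of the sections.

PROOF.  If not, there are `r + 1` sections `v i` of `W + F`, `r = rk`, independent modulo `s₁ L(W)`.  They are dependent over `k(t)`:
`∑ p_i(t) v i = 0`, `p_i` polynomials, not all divisible by `X`; `u = ∑ p_i(0) v i = - t ∑ q_i(t) v i`, `p_i = p_i(0) + X q_i`.  `u / s₁` is a section of `W`: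
clear where `s₁` is a unit; where it is not, `s₀` is a unit, `t` is regular and `u / s₁ = - (1 / s₀) ∑ q_i(t) v i`.
-/

set_option autoImplicit false

namespace Pool.Agent.H32.KF

open Pool.Agent.H54.RV Pool.Agent.H83.TU Pool.Agent.H36.ZO

variable {k K : Type} [Field k] [Field K] [Algebra k K] {X : Mod k K}

/-- a pencil without base points: two sections without common zeros -/
structure Pcl (F : Cart X) (s₀ s₁ : K) : Prop where
  m0 : s₀ ∈ secL F 1
  m1 : s₁ ∈ secL F 1
  un : ∀ x, Un (X.O x) (s₀ * F.eq x) ∨ Un (X.O x) (s₁ * F.eq x)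
  tr : Transcendental k (s₁ / s₀)

variable {F : Cart X} {s₀ s₁ : K}

theorem Pcl.ne0 (h : Pcl F s₀ s₁) : s₀ ≠ 0 := by
  intro h1
  apply h.tr
  rw [h1, div_zero]
  exact isAlgebraic_zero

theorem Pcl.ne1 (h : Pcl F s₀ s₁) : s₁ ≠ 0 := by
  intro h1
  apply h.tr
  rw [h1, zero_div]
  exact isAlgebraic_zero

/-- a polynomial relation can be divided by `X` until some constant term is not zero -/
private theorem strip {r : ℕ} {t : K} (ht : t ≠ 0) (v : Fin (r + 1) → K) :
    ∀ (n : ℕ) (p : Fin (r + 1) → Polynomial k), p ≠ 0 → (∑ i, (p i).natDegree) ≤ n →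
      ∑ i, Polynomial.aeval t (p i) * v i = 0 →
      ∃ q : Fin (r + 1) → Polynomial k, (∃ i, (q i).coeff 0 ≠ 0) ∧ ∑ i, Polynomial.aeval t (q i) * v i = 0 := by
  intro n
  induction n with
  | zero =>
    intro p hp hn hs
    by_contra hcon
    push Not at hcon
    apply hp
    funext i
    by_contra hi
    have h1 : (p i).natDegree = 0 := by
      have h2 : (p i).natDegree ≤ ∑ i, (p i).natDegree :=
        Finset.single_le_sum (f := fun i => (p i).natDegree) (fun i _ => Nat.zero_le _) (Finset.mem_univ i)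
      omega
    have h3 := Polynomial.eq_C_of_natDegree_eq_zero h1
    refine hcon p ⟨i, fun h4 => hi ?_⟩ hs
    rw [h3, h4, Polynomial.C_0]
    rfl
  | succ n ih =>
    intro p hp hn hs
    by_cases h1 : ∃ i, (p i).coeff 0 ≠ 0
    · exact ⟨p, h1, hs⟩
    · push Not at h1
      have h2 : ∀ i, ∃ q, p i = Polynomial.X * q := fun i => Polynomial.X_dvd_iff.2 (h1 i)
      choose q hq using h2
      obtain ⟨i₀, hi₀⟩ : ∃ i, p i ≠ 0 := by
        by_contra h3
        push Not at h3
        exact hp (funext h3)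
      have hq0 : q i₀ ≠ 0 := by
        intro h3
        apply hi₀
        rw [hq, h3, mul_zero]
      refine ih q (fun h3 => hq0 (by rw [h3]; rfl)) ?_ ?_
      · have h3 : ∀ i, (q i).natDegree ≤ (p i).natDegree := by
          intro i
          by_cases h4 : q i = 0
          · rw [h4, Polynomial.natDegree_zero]
            exact Nat.zero_le _
          · rw [hq i, Polynomial.natDegree_X_mul h4]
            omega
        have h4 : (q i₀).natDegree < (p i₀).natDegree := by
          rw [hq i₀, Polynomial.natDegree_X_mul hq0]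
          omega
        have h5 : ∑ i, (q i).natDegree < ∑ i, (p i).natDegree :=
          Finset.sum_lt_sum (fun i _ => h3 i) ⟨i₀, Finset.mem_univ _, h4⟩
        omega
      · have h3 : t * ∑ i, Polynomial.aeval t (q i) * v i = 0 := by
          rw [Finset.mul_sum, ← hs]
          refine Finset.sum_congr rfl fun i _ => ?_
          rw [hq i, map_mul, Polynomial.aeval_X, mul_assoc]
        exact (mul_eq_zero.1 h3).resolve_left ht

theorem rk1 (h : Pcl F s₀ s₁) (W : Cart X) [FiniteDimensional k (secL W 1)] [FiniteDimensional k (secL (W * F) 1)] :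
    h0 (W * F) 1 ≤ h0 W 1 + rk (IntermediateField.adjoin k {s₁ / s₀}) (W * F) := by
  classical
  by_contra hcon
  rw [not_le] at hcon
  have hs0 := h.ne0
  have hs1 := h.ne1
  have ht : s₁ / s₀ ≠ 0 := div_ne_zero hs1 hs0
  obtain ⟨r, hr⟩ : ∃ r, r = rk (IntermediateField.adjoin k {s₁ / s₀}) (W * F) := ⟨_, rfl⟩
  rw [← hr] at hcon
  have := span_fin (IntermediateField.adjoin k {s₁ / s₀}) (W * F)
  -- the subspace
  let m : K →ₗ[k] K := LinearMap.mulLeft k s₁
  have hm : Function.Injective m := fun a b hab => mul_left_cancel₀ hs1 hab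
  obtain ⟨U, hU⟩ : ∃ U : Submodule k (secL (W * F) 1), U = ((secL W 1).map m).comap (secL (W * F) 1).subtype := ⟨_, rfl⟩
  have hle : (secL W 1).map m ≤ secL (W * F) 1 := by
    rintro _ ⟨a, ha, rfl⟩
    show s₁ * a ∈ secL (W * F) 1
    rw [mul_comm s₁ a]
    exact sec_mul1 ha h.m1
  have hUr : Module.finrank k U = h0 W 1 := by
    rw [hU]
    have h1 := Submodule.comap_subtype_eq_top.2 hle
    have h2 : Module.finrank k (((secL W 1).map m).comap (secL (W * F) 1).subtype) = Module.finrank k ((secL W 1).map m) :=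
      (Submodule.comapSubtypeEquivOfLe hle).finrank_eq
    rw [h2]
    exact ((secL W 1).equivMapOfInjective m hm).finrank_eq.symm
  have hq : r + 1 ≤ Module.finrank k (secL (W * F) 1 ⧸ U) := by
    have h1 := U.finrank_quotient_add_finrank
    have h2 : Module.finrank k (secL (W * F) 1) = h0 (W * F) 1 := rfl
    omega
  obtain ⟨f, hf⟩ := exists_linearIndependent_of_le_finrank hq
  choose v hv using fun i => U.mkQ_surjective (f i)
  obtain ⟨p, hp, hps⟩ := dep_poly (ψ := s₁ / s₀) (u := r)
    (Submodule.span (IntermediateField.adjoin k {s₁ / s₀}) (secL (W * F) 1 : Set K)) hr.ge (fun i => (v i : K))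
    (fun i => Submodule.subset_span (v i).2)
  obtain ⟨q, ⟨i₀, hi₀⟩, hqs⟩ := strip ht (fun i => (v i : K)) _ p hp le_rfl hps
  -- the combination of the constant terms
  have hdec : ∀ i, q i = Polynomial.C ((q i).coeff 0) + Polynomial.X * (q i).divX := fun i => by
    rw [add_comm, mul_comm]
    exact ((q i).divX_mul_X_add).symm
  obtain ⟨u, hu⟩ : ∃ u : secL (W * F) 1, u = ∑ i, (q i).coeff 0 • v i := ⟨_, rfl⟩
  have huK : (u : K) = ∑ i, algebraMap k K ((q i).coeff 0) * (v i : K) := by
    rw [hu, AddSubmonoidClass.coe_finsetSum]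
    refine Finset.sum_congr rfl fun i _ => ?_
    rw [← Algebra.smul_def]
    rfl
  obtain ⟨w, hw⟩ : ∃ w : K, w = ∑ i, Polynomial.aeval (s₁ / s₀) (q i).divX * (v i : K) := ⟨_, rfl⟩
  have huw : (u : K) = -(s₁ / s₀ * w) := by
    have h1 : ∑ i, Polynomial.aeval (s₁ / s₀) (q i) * (v i : K) = u + s₁ / s₀ * w := by
      rw [huK, hw, Finset.mul_sum, ← Finset.sum_add_distrib]
      refine Finset.sum_congr rfl fun i _ => ?_
      conv_lhs => rw [hdec i]
      rw [map_add, map_mul, Polynomial.aeval_C, Polynomial.aeval_X]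
      ring
    rw [hqs] at h1
    linear_combination -h1
  have hmem : (u : K) / s₁ ∈ secL W 1 := by
    intro x
    rw [pow_one]
    have hWF : (W * F).eq x = W.eq x * F.eq x := mul_eq _ _ _
    have hFne := F.ne x
    rcases h.un x with h1 | h1
    · -- `s₀` is a unit
      have h2 : s₁ * F.eq x ∈ X.O x := by
        have := h.m1 x
        rwa [pow_one] at this
      have h3 : s₁ / s₀ ∈ X.O x := by
        have h4 := (X.O x).mul_mem h2 h1.2.2
        have h5 : s₁ * F.eq x * (s₀ * F.eq x)⁻¹ = s₁ / s₀ := by field_simp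
        rwa [h5] at h4
      have h4 : w * (W * F).eq x ∈ X.O x := by
        rw [hw, Finset.sum_mul]
        refine (X.O x).sum_mem fun i _ => ?_
        have h5 := (v i).2 x
        rw [pow_one] at h5
        rw [mul_assoc]
        refine (X.O x).mul_mem ?_ h5
        have h6 : Polynomial.aeval (s₁ / s₀) (q i).divX =
            ((Polynomial.aeval (⟨s₁ / s₀, h3⟩ : X.O x) (q i).divX : X.O x) : K) := by
          rw [← Subalgebra.coe_val, ← Polynomial.aeval_algHom_apply]
          rfl
        rw [h6]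
        exact Subtype.mem _
      have h5 : (u : K) / s₁ * W.eq x = -((s₀ * F.eq x)⁻¹ * (w * (W * F).eq x)) := by
        rw [huw, hWF]
        field_simp
      rw [h5]
      exact (X.O x).neg_mem ((X.O x).mul_mem h1.2.2 h4)
    · have h2 := u.2 x
      rw [pow_one] at h2
      have h5 : (u : K) / s₁ * W.eq x = (s₁ * F.eq x)⁻¹ * ((u : K) * (W * F).eq x) := by
        rw [hWF]
        field_simp
      rw [h5]
      exact (X.O x).mul_mem h1.2.2 h2
  have huU : u ∈ U := by
    rw [hU, Submodule.mem_comap]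
    refine ⟨(u : K) / s₁, hmem, ?_⟩
    show s₁ * ((u : K) / s₁) = u
    field_simp
  have h6 : ∑ i, (q i).coeff 0 • f i = 0 := by
    have h7 : U.mkQ u = ∑ i, (q i).coeff 0 • f i := by
      rw [hu, map_sum]
      refine Finset.sum_congr rfl fun i _ => ?_
      rw [map_smul, hv]
    rw [← h7]
    exact (Submodule.Quotient.mk_eq_zero U).2 huU
  exact hi₀ (Fintype.linearIndependent_iff.1 hf _ h6 i₀)

end Pool.Agent.H32.KF
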