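import Pool.Agent.H32.KF.Rk1
import Pool.Agent.H20.ZO.Bnd

/-!
# [H32 KF Rks] K3 fibrations (MP_e49dc9_ag): the rank over `k(t)` of the sections on a horizontal prime divisor

`S` a prime divisor with generic point `z`, `t = s₁ / s₀` is transcendental on `S`, `T(F,F,S) = 0`.
`rks`: there are constants `d, C` of `S` with `rk (U | S) ≤ d (T(U,F,S) + C)` for all `U` such that `U + n F + A` is ample for some `n`.

PROOF (copy of `bnd` in `H20/ZO/Bnd.lean`).  `ψ = rs z (s₁ / s₀)`; `σ_i = rs z (s_i F.eq z)` are sections of `resD z F`, `σ₁ = σ₀ ψ`, `σ₀ ≠ 0`.  `p` a place of `κ(z) / k(ψ)`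
(`H36.ZO.place_ex`), `d = deg p`.  Choose (`ex_G`) `b ≥ 1` such that `A ^ b` has a section on `S`, not zero; `D = U F ^ n A ^ b` is ample (if `U F ^ n A` is ample), and `resD D (resD U)⁻¹ =
resD (F ^ n A ^ b)` has the section `σ₀ ^ n τ`, not zero.  `rk_pow_le`: `j rk(U) ≤ d (rk(D ^ j) + j)`; `rk_step`: `rk(D ^ j) ≤ h⁰_S(D ^ j F) - h⁰_S(D ^ j) = j T(D,F,S) + C'` for large `j` (`ev_srf`),
`T(D,F,S) = T(U,F,S) + b T(A,F,S)`.  `j → ∞`: `rk(U) ≤ d (T(U,F,S) + b T(A,F,S) + 1)`.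
-/

set_option autoImplicit false

namespace Pool.Agent.H32.KF

open Pool.Agent.H54.RV Pool.Agent.H83.TU Pool.Agent.H83.TK Pool.Agent.H20.TD Pool.Agent.H20.TP
open Pool.Agent.H24.VP (RR chS chi)
open Pool.Agent.H36.ZO (rk)

variable {k K : Type} [Field k] [Field K] [Algebra k K] {X : Mod k K}
  {T : Cart X → Cart X → Cart X → ℝ} {l : Cart X → ℝ} {c : ℝ}

private theorem dif (hr : RR T l c) (D F S : Cart X) (n : ℕ) :
    chS T l S (F * D ^ n) - chS T l S (1 * D ^ n) = n * T D F S + (T F F S / 2 - T F S S / 2) := by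
  unfold chS
  rw [T_sq hr, T_sq hr, T_lin hr, T_lin hr, hr.tri.one, hr.tri.one, hr.tri.s12 F D S, hr.tri.one]
  ring

private theorem sec_pow {Y : Mod k K} {G : Cart Y} {s : K} (hs : s ∈ secL G 1) (n : ℕ) : s ^ n ∈ secL (G ^ n) 1 := by
  induction n with
  | zero =>
    intro x
    rw [pow_zero, pow_zero, one_eq, one_pow, one_mul]
    exact (Y.O x).one_mem
  | succ n ih =>
    rw [pow_succ, pow_succ]
    exact H36.ZO.sec_mul1 ih hs

theorem rks [CharZero k] [IsAlgClosed k] [T0Space X.P] (h : Hyp X) (hr : RR T l c) {A F S : Cart X} {z : X.P}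
    (hA : Ample A) (hS : SPr X z S) (htr : Algebra.trdeg k (X.kap z) = 2) {s₀ s₁ : K} (hp : Pcl F s₀ s₁)
    (hFF : T F F S = 0) (hu : Un (X.O z) (s₀ * F.eq z)) (ht : Transcendental k (X.rs z (s₁ / s₀))) :
    ∃ (d : ℕ) (C : ℝ), 0 ≤ C ∧ ∀ U : Cart X, (∃ n : ℕ, Ample (U * F ^ n * A)) →
      (rk (IntermediateField.adjoin k {X.rs z (s₁ / s₀)}) (resD h.var z U) : ℝ) ≤ d * (T U F S + C) := by
  classical
  have hfd : ∀ W : Cart (subM h.var z), FiniteDimensional k (secL W 1) := fd_sub h.var hA z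
  obtain ⟨ψ, hψe⟩ : ∃ ψ, ψ = X.rs z (s₁ / s₀) := ⟨_, rfl⟩
  rw [← hψe] at ht ⊢
  obtain ⟨p, hpp⟩ := H36.ZO.place_ex ht htr (kap_fg h.var z)
  -- the sections of `F` on the surface
  have hs0 := hp.ne0
  have hFz := F.ne z
  obtain ⟨σ₀, hσ₀e⟩ : ∃ σ₀, σ₀ = X.rs z (s₀ * F.eq z) := ⟨_, rfl⟩
  obtain ⟨σ₁, hσ₁e⟩ : ∃ σ₁, σ₁ = X.rs z (s₁ * F.eq z) := ⟨_, rfl⟩
  have hσ₀ : σ₀ ∈ secL (resD h.var z F) 1 := by
    have h1 := (resS h.var z F 1 ⟨s₀, hp.m0⟩).2
    rwa [resS_coe, pow_one, ← hσ₀e] at h1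
  have hσ₁ : σ₁ ∈ secL (resD h.var z F) 1 := by
    have h1 := (resS h.var z F 1 ⟨s₁, hp.m1⟩).2
    rwa [resS_coe, pow_one, ← hσ₁e] at h1
  have hne : σ₀ ≠ 0 := by
    rw [hσ₀e]
    exact (rs_ne z hu.2.1).2 hu
  have hq : s₁ / s₀ ∈ X.O z := by
    have h4 := (X.O z).mul_mem (by have := hp.m1 z; rwa [pow_one] at this : s₁ * F.eq z ∈ X.O z) hu.2.2
    have h5 : s₁ * F.eq z * (s₀ * F.eq z)⁻¹ = s₁ / s₀ := by field_simp
    rwa [h5] at h4
  have hσ : σ₁ = σ₀ * ψ := by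
    rw [hσ₁e, hσ₀e, hψe, ← rs_mul z hu.2.1 hq]
    congr 1
    field_simp
  -- the section of a multiple of `A`
  obtain ⟨b, hb, hbs⟩ := ex_G h.var hA (res_ample h.var z A hA) 1
  obtain ⟨τ, hτ0, hτ⟩ := ex_sec hbs
  refine ⟨deg p, |b * T A F S + 1|, abs_nonneg _, fun U hU => ?_⟩
  obtain ⟨n, hn⟩ := hU
  obtain ⟨D, hD⟩ : ∃ D, D = U * F ^ n * A ^ b := ⟨_, rfl⟩
  have hDa : Ample D := by
    obtain ⟨b', rfl⟩ : ∃ b', b = b' + 1 := ⟨b - 1, by omega⟩
    rw [hD, pow_succ, mul_comm (A ^ b') A, ← mul_assoc]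
    rcases Nat.eq_zero_or_pos b' with h1 | h1
    · rw [h1, pow_zero, mul_one]
      exact hn
    · exact ample_mul h.var _ _ hn (Pool.Agent.H83.TU.ample_pow A b' h1 hA)
  have hTD : T D F S = T U F S + b * T A F S := by
    rw [hD, hr.tri.add, hr.tri.add, T_pow1 hr, T_pow1 hr, hFF, mul_zero, add_zero]
  have hτ' : σ₀ ^ n * τ ∈ secL (resD h.var z D * (resD h.var z U)⁻¹) 1 := by
    have e : resD h.var z D * (resD h.var z U)⁻¹ = resD h.var z F ^ n * resD h.var z (A ^ b * 1⁻¹) := by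
      rw [← map_inv, ← map_mul, ← map_pow, ← map_mul, hD, inv_one, mul_one]
      congr 1
      rw [mul_assoc U, mul_comm U, mul_inv_cancel_right]
    rw [e]
    exact H36.ZO.sec_mul1 (sec_pow hσ₀ n) hτ
  have hτ0' : σ₀ ^ n * τ ≠ 0 := mul_ne_zero (pow_ne_zero _ hne) hτ0
  have hev := ev_srf h hr hS
  obtain ⟨j₁, hj₁⟩ := hev 1 D hDa
  obtain ⟨j₂, hj₂⟩ := hev F D hDa
  obtain ⟨C, hC⟩ : ∃ C, C = T F F S / 2 - T F S S / 2 := ⟨_, rfl⟩
  obtain ⟨R, hR⟩ : ∃ R : ℝ, R = (rk (IntermediateField.adjoin k {ψ}) (resD h.var z U) : ℝ) := ⟨_, rfl⟩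
  obtain ⟨E, hE⟩ : ∃ E : ℝ, E = T U F S + (b * T A F S + 1) := ⟨_, rfl⟩
  have hrk : ∀ j ≥ max j₁ j₂, (j : ℝ) * R ≤ deg p * (j * E + C) := by
    intro j hj
    have := hfd (resD h.var z U)
    have := hfd (resD h.var z D ^ j)
    have := hfd (resD h.var z D ^ j * resD h.var z F)
    have h1 := H36.ZO.rk_pow_le (IntermediateField.adjoin k {ψ}) p hpp hτ' hτ0' j
    have h2 := H36.ZO.rk_step (D := resD h.var z D ^ j) hσ₀ hσ₁ hne hσ ht
    have h3 := hj₁ j (le_trans (le_max_left _ _) hj)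
    have h4 := hj₂ j (le_trans (le_max_right _ _) hj)
    have e1 : hz h.var z (1 * D ^ j) = h0 (resD h.var z D ^ j) 1 := by
      unfold hz
      rw [one_mul, map_pow]
    have e2 : hz h.var z (F * D ^ j) = h0 (resD h.var z D ^ j * resD h.var z F) 1 := by
      unfold hz
      rw [map_mul, map_pow, mul_comm]
    have h5 := dif hr D F S j (T := T) (l := l) (c := c)
    rw [← h3, ← h4, hTD, ← hC] at h5
    simp only [e1, e2] at h5
    have h6 : (H36.ZO.rk (IntermediateField.adjoin k {ψ}) (resD h.var z D ^ j) : ℝ) +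
        (h0 (resD h.var z D ^ j) 1 : ℝ) ≤ (h0 (resD h.var z D ^ j * resD h.var z F) 1 : ℝ) := by
      exact_mod_cast h2
    have h7 : (j : ℝ) * R ≤
        deg p * ((H36.ZO.rk (IntermediateField.adjoin k {ψ}) (resD h.var z D ^ j) : ℝ) + j) := by
      rw [hR]
      exact_mod_cast h1
    refine h7.trans (mul_le_mul_of_nonneg_left ?_ (Nat.cast_nonneg _))
    rw [hE]
    nlinarith
  -- the limit
  rw [← hR]
  have hfin : R ≤ deg p * E := by
    by_contra hcon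
    rw [not_le] at hcon
    obtain ⟨j, hj⟩ := exists_nat_gt (max ((max j₁ j₂ : ℕ) : ℝ) ((deg p * C) / (R - deg p * E)))
    have h1 : (max j₁ j₂ : ℕ) ≤ j := by
      have := (le_max_left _ _).trans hj.le
      exact_mod_cast this
    have h2 : (deg p * C) / (R - deg p * E) < j := (le_max_right _ _).trans_lt hj
    rw [div_lt_iff₀ (by linarith)] at h2
    have h3 := hrk j h1
    nlinarith
  refine hfin.trans (mul_le_mul_of_nonneg_left ?_ (Nat.cast_nonneg _))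
  rw [hE]
  have := le_abs_self (b * T A F S + 1)
  linarith

end Pool.Agent.H32.KF
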