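import Pool.Agent.H32.KF.Rk2
import Pool.Agent.H32.KF.Rks

/-!
# [H32 KF Rkb] K3 fibrations (MP_e49dc9_ag): the number of sections lost when multiples of `F` are subtracted

`rkb`: `S` a horizontal prime divisor; there are constants `d, C` with `h⁰(U + n F) ≤ h⁰(U) + n d (T(U,F,S) + C)` for all `U` such that `U + m F + A` is ample for some `m`
and `h⁰(U + m F - S) = 0` for all `m`.  (`rk1`, `rk2`, `rks`.)
-/

set_option autoImplicit false

namespace Pool.Agent.H32.KF

open Pool.Agent.H54.RV Pool.Agent.H83.TU Pool.Agent.H83.TK Pool.Agent.H20.TD Pool.Agent.H20.TP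
open Pool.Agent.H24.VP (RR chS chi)
open Pool.Agent.H36.ZO (rk)

variable {k K : Type} [Field k] [Field K] [Algebra k K] {X : Mod k K}
  {T : Cart X → Cart X → Cart X → ℝ} {l : Cart X → ℝ} {c : ℝ}

theorem rkb [CharZero k] [IsAlgClosed k] [T0Space X.P] (h : Hyp X) (hr : RR T l c) {A F S : Cart X} {z : X.P}
    (hA : Ample A) (hF : ∀ B : Cart X, Ample B → Ample (B * F)) (hS : SPr X z S) (htr : Algebra.trdeg k (X.kap z) = 2)
    {s₀ s₁ : K} (hp : Pcl F s₀ s₁) (hFF : T F F S = 0) (hu : Un (X.O z) (s₀ * F.eq z))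
    (ht : Transcendental k (X.rs z (s₁ / s₀))) :
    ∃ (d : ℕ) (C : ℝ), 0 ≤ C ∧ ∀ U : Cart X, (∃ n : ℕ, Ample (U * F ^ n * A)) →
      (∀ m : ℕ, h0 (U * F ^ m * S⁻¹) 1 = 0) →
      ∀ n : ℕ, (h0 (U * F ^ n) 1 : ℝ) ≤ h0 U 1 + n * (d * (T U F S + C)) := by
  obtain ⟨d, C, hC0, hC⟩ := rks h hr hA hS htr hp hFF hu ht
  have hfd : ∀ W : Cart X, FiniteDimensional k (secL W 1) := Pool.Agent.H24.TK.fd h.var h.gen hA
  have hfs : ∀ W : Cart (subM h.var z), FiniteDimensional k (secL W 1) := fd_sub h.var hA z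
  refine ⟨d, C, hC0, fun U hU hz n => ?_⟩
  have hpow : ∀ (m : ℕ) (B : Cart X), Ample B → Ample (B * F ^ m) := by
    intro m B hB
    induction m with
    | zero => rwa [pow_zero, mul_one]
    | succ m ih =>
      rw [pow_succ, ← mul_assoc]
      exact hF _ ih
  induction n with
  | zero => simp
  | succ n ih =>
    have := hfd (U * F ^ n)
    have := hfd (U * F ^ n * F)
    have e : U * F ^ (n + 1) = U * F ^ n * F := by rw [pow_succ, mul_assoc]
    have h1 := rk1 hp (U * F ^ n)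
    have h2 := rk2 h.var hp hS hu hfd hfs (U := U * F ^ n * F) fun m => by
      have h3 := hz (n + 1 + m)
      rwa [pow_add, pow_succ, ← mul_assoc, ← mul_assoc] at h3
    have h3 := hC (U * F ^ n * F) (by
      obtain ⟨m, hm⟩ := hU
      refine ⟨m, ?_⟩
      have h4 := hpow (n + 1) _ hm
      have h5 : U * F ^ m * A * F ^ (n + 1) = U * F ^ n * F * F ^ m * A := by
        rw [pow_succ]
        ac_rfl
      rwa [h5] at h4)
    have h4 : T (U * F ^ n * F) F S = T U F S := by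
      rw [hr.tri.add, hr.tri.add, hr.tri.pow, hFF]
      ring
    rw [h4] at h3
    rw [e]
    have h5 : (h0 (U * F ^ n * F) 1 : ℝ) ≤ h0 (U * F ^ n) 1 +
        (rk (IntermediateField.adjoin k {X.rs z (s₁ / s₀)}) (resD h.var z (U * F ^ n * F)) : ℝ) := by
      exact_mod_cast h1.trans (Nat.add_le_add_left h2 _)
    push_cast
    nlinarith

end Pool.Agent.H32.KF
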